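import Pool.Agent.P.MP_af0a18_lc.Main

universe u

open Pool.Agent.Lib.Forcing Pool.Agent.P.MP_af0a18_lc

/-- There is a transitive model `N` of ZFC with cardinals `ν = ω₁` (the least uncountable
cardinal of `N`) and `κ` such that `D(ν, κ)` holds and `E(ν, κ)` fails in `N`. Hence ZFC does
not prove that `D(ν, κ)` implies `E(ν, κ)`. -/
theorem Pool.Agent.Results.MP_af0a18_lc.ConsistentDNotE.result :
    ∃ N : Set ZFSet.{u}, IsZFModel N ∧ Choice N ∧ ∃ ν ∈ N, ∃ κ ∈ N,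
      IsCardinalIn N ν ∧ ZFSet.omega ∈ ν ∧ (∀ μ ∈ ν, IsCardinalIn N μ → μ ⊆ ZFSet.omega) ∧
      IsCardinalIn N κ ∧ PrincipleD N ν κ ∧ ¬ PrincipleE N ν κ :=
  exists_model
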